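import Pool.Agent.DC.Iso.Small

/-!
Project DC, block Iso (helper6): transport of peripheral loops and of mapping classes along an
isomorphism from the standard surface group onto the fundamental group of a pants graph.
-/

namespace Pool.Agent.DC.Iso

section
variable {g n : ℕ} {G : PantsGraph} {hn : G.n = n} {Φ : SGrp g n ≃* G.pi1}

theorem isPeripheral_apply_iff
    (hΦ : ∀ j : Fin G.n, ∃ w, G.IsPath G.base (G.puncture j).1 w ∧
      ((Φ (sc (Fin.cast hn j)) : G.pi1) : G.PathGroup) = w * G.cuff (G.puncture j) * w⁻¹)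
    (γ : SGrp g n) : G.IsPeripheral (Φ γ) ↔ SPeripheral γ := by
  constructor
  · rintro ⟨j, w, hw, h⟩
    obtain ⟨w0, hw0, h0⟩ := hΦ j
    have hu : w * w0⁻¹ ∈ G.pi1 := hw.mul hw0.inv
    refine ⟨Fin.cast hn j, Φ.symm ⟨w * w0⁻¹, hu⟩, ?_⟩
    have key : ∀ e : G.pi1, ((e : G.pi1) : G.PathGroup) = (w * w0⁻¹) *
        ((Φ (sc (Fin.cast hn j)) : G.pi1) : G.PathGroup) * (w * w0⁻¹)⁻¹ →
        e = Φ (Φ.symm ⟨w * w0⁻¹, hu⟩ * sc (Fin.cast hn j) * (Φ.symm ⟨w * w0⁻¹, hu⟩)⁻¹) := by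
      intro e he
      apply Subtype.ext
      rw [he, map_mul, map_mul, map_inv, MulEquiv.apply_symm_apply]
      rfl
    rcases h with h | h
    · left
      apply Φ.injective
      apply key
      rw [h, h0]
      group
    · right
      apply Φ.injective
      have h1 : (Φ γ)⁻¹ = Φ (Φ.symm ⟨w * w0⁻¹, hu⟩ * sc (Fin.cast hn j) *
          (Φ.symm ⟨w * w0⁻¹, hu⟩)⁻¹) := by
        apply key
        rw [Subgroup.coe_inv, h, h0]
        group
      rw [← inv_inv (Φ γ), h1, ← map_inv]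
      congr 1
      group
  · rintro ⟨j, w, h⟩
    obtain ⟨j, rfl⟩ : ∃ j' : Fin G.n, j = Fin.cast hn j' := ⟨Fin.cast hn.symm j, rfl⟩
    obtain ⟨w0, hw0, h0⟩ := hΦ j
    refine ⟨j, ((Φ w : G.pi1) : G.PathGroup) * w0, (Φ w).2.mul hw0, ?_⟩
    rcases h with h | h
    · left
      rw [h, map_mul, map_mul, map_inv, Subgroup.coe_mul, Subgroup.coe_mul, Subgroup.coe_inv, h0]
      group
    · right
      rw [h, map_mul, map_mul, map_inv, map_inv, Subgroup.coe_mul, Subgroup.coe_mul,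
        Subgroup.coe_inv, Subgroup.coe_inv, h0]
      group

theorem congr_mem_autStar_iff
    (hΦ : ∀ j : Fin G.n, ∃ w, G.IsPath G.base (G.puncture j).1 w ∧
      ((Φ (sc (Fin.cast hn j)) : G.pi1) : G.PathGroup) = w * G.cuff (G.puncture j) * w⁻¹)
    (φ : MulAut (SGrp g n)) : MulAut.congr Φ φ ∈ G.autStar ↔ φ ∈ sAutStar g n := by
  constructor
  · intro h γ
    have := h (Φ γ)
    rw [isPeripheral_apply_iff hΦ] at this
    have e : (MulAut.congr Φ φ) (Φ γ) = Φ (φ γ) := by simp [MulAut.congr]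
    rw [e, isPeripheral_apply_iff hΦ] at this
    exact this
  · intro h γ
    obtain ⟨γ, rfl⟩ := Φ.surjective γ
    have e : (MulAut.congr Φ φ) (Φ γ) = Φ (φ γ) := by simp [MulAut.congr]
    rw [e, isPeripheral_apply_iff hΦ, isPeripheral_apply_iff hΦ]
    exact h γ

theorem congr_symm_mem_sAutStar_iff
    (hΦ : ∀ j : Fin G.n, ∃ w, G.IsPath G.base (G.puncture j).1 w ∧
      ((Φ (sc (Fin.cast hn j)) : G.pi1) : G.PathGroup) = w * G.cuff (G.puncture j) * w⁻¹)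
    (φ : MulAut G.pi1) : (MulAut.congr Φ).symm φ ∈ sAutStar g n ↔ φ ∈ G.autStar := by
  rw [← congr_mem_autStar_iff hΦ, MulEquiv.apply_symm_apply]

theorem congr_apply (φ : MulAut (SGrp g n)) (γ : SGrp g n) :
    (MulAut.congr Φ φ) (Φ γ) = Φ (φ γ) := by simp [MulAut.congr]

theorem congr_symm_apply (φ : MulAut G.pi1) (γ : SGrp g n) :
    Φ (((MulAut.congr Φ).symm φ) γ) = φ (Φ γ) := by simp [MulAut.congr]

end

/-- One exponent works for all elements. -/
theorem exists_pow_mem {Γ : Type*} [Group Γ] (H K : Subgroup Γ) (h : H.relIndex K ≠ 0) :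
    ∃ N : ℕ, 0 < N ∧ ∀ a ∈ K, a ^ N ∈ H := by
  refine ⟨(H.relIndex K).factorial, Nat.factorial_pos _, fun a ha => ?_⟩
  obtain ⟨m, hm0, hm1, hm2⟩ := Subgroup.exists_pow_mem_of_relIndex_ne_zero h ha
  obtain ⟨q, hq⟩ := Nat.dvd_factorial hm0 hm1
  rw [hq, pow_mul]
  exact H.pow_mem hm2.1 q

/-- Powers of the mapping classes of the pants graph lie in a given subgroup of finite index. -/
theorem exists_pow_mem_of_pants {g n : ℕ} {G : PantsGraph} {hn : G.n = n} {Φ : SGrp g n ≃* G.pi1}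
    (hΦ : ∀ j : Fin G.n, ∃ w, G.IsPath G.base (G.puncture j).1 w ∧
      ((Φ (sc (Fin.cast hn j)) : G.pi1) : G.PathGroup) = w * G.cuff (G.puncture j) * w⁻¹)
    (Λ : Subgroup (MulAut (SGrp g n))) (hΛ : Λ.relIndex (sAutStar g n) ≠ 0) :
    ∃ N : ℕ, 0 < N ∧ ∀ φ ∈ G.autStar, ((MulAut.congr Φ).symm φ) ^ N ∈ Λ := by
  obtain ⟨N, hN, h⟩ := exists_pow_mem Λ (sAutStar g n) hΛ
  exact ⟨N, hN, fun φ hφ => h _ ((congr_symm_mem_sAutStar_iff hΦ φ).2 hφ)⟩

end Pool.Agent.DC.Iso
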