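import Pool.Agent.DC.Std

/-!
Project DC, block Iso (helper6): generic part. Pants graph, path group, closed
paths; the criterion that identifies a group with the group of closed paths.
-/

namespace Pool.Agent.DC.Iso

/-- pants graph: `V` the pants, `E` the interior curves; the two sides of a
curve are two cuffs, all these cuffs are distinct. -/
structure PG (V E : Type) where
  src : E → V × Fin 3
  tgt : E → V × Fin 3
  inj : Function.Injective (Sum.elim src tgt)

variable {V E : Type} (G : PG V E)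

inductive PGen (V E : Type) : Type
  | cuff (x : V × Fin 3) : PGen V E
  | edge (e : E) : PGen V E

namespace PG

def rels : Set (FreeGroup (PGen V E)) :=
  (Set.range fun P : V => FreeGroup.of (PGen.cuff (P, 0)) * FreeGroup.of (PGen.cuff (P, 1)) *
      FreeGroup.of (PGen.cuff (P, 2))) ∪
  (Set.range fun e : E => FreeGroup.of (PGen.edge e) * FreeGroup.of (PGen.cuff (G.tgt e)) *
      (FreeGroup.of (PGen.edge e))⁻¹ * FreeGroup.of (PGen.cuff (G.src e)))

abbrev Grp : Type := PresentedGroup G.rels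

def cf (x : V × Fin 3) : G.Grp := PresentedGroup.of (PGen.cuff x)
def ed (e : E) : G.Grp := PresentedGroup.of (PGen.edge e)

theorem cf_rel (P : V) : G.cf (P, 0) * G.cf (P, 1) * G.cf (P, 2) = 1 := by
  have := PresentedGroup.one_of_mem (rels := G.rels)
    (x := FreeGroup.of (PGen.cuff (P, 0)) * FreeGroup.of (PGen.cuff (P, 1)) *
      FreeGroup.of (PGen.cuff (P, 2))) (Or.inl ⟨P, rfl⟩)
  simpa [cf, PresentedGroup.of] using this

theorem ed_rel (e : E) : G.ed e * G.cf (G.tgt e) * (G.ed e)⁻¹ * G.cf (G.src e) = 1 := by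
  have := PresentedGroup.one_of_mem (rels := G.rels)
    (x := FreeGroup.of (PGen.edge e) * FreeGroup.of (PGen.cuff (G.tgt e)) *
      (FreeGroup.of (PGen.edge e))⁻¹ * FreeGroup.of (PGen.cuff (G.src e))) (Or.inr ⟨e, rfl⟩)
  simpa [cf, ed, PresentedGroup.of] using this

inductive IsPath : V → V → G.Grp → Prop
  | nil (P : V) : IsPath P P 1
  | cuff {P Q : V} {w : G.Grp} (h : IsPath P Q w) (i : Fin 3) : IsPath P Q (w * G.cf (Q, i))
  | cuffInv {P Q : V} {w : G.Grp} (h : IsPath P Q w) (i : Fin 3) : IsPath P Q (w * (G.cf (Q, i))⁻¹)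
  | fwd {P : V} {w : G.Grp} (e : E) (h : IsPath P (G.src e).1 w) : IsPath P (G.tgt e).1 (w * G.ed e)
  | bwd {P : V} {w : G.Grp} (e : E) (h : IsPath P (G.tgt e).1 w) :
      IsPath P (G.src e).1 (w * (G.ed e)⁻¹)

end PG

namespace PG
variable {V E : Type} {G : PG V E}

theorem IsPath.trans {P Q R : V} {v w : G.Grp} (hv : G.IsPath P Q v) (hw : G.IsPath Q R w) :
    G.IsPath P R (v * w) := by
  induction hw with
  | nil => simpa using hv
  | cuff h i ih => rw [← mul_assoc]; exact ih.cuff i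
  | cuffInv h i ih => rw [← mul_assoc]; exact ih.cuffInv i
  | fwd e h ih => rw [← mul_assoc]; exact ih.fwd e
  | bwd e h ih => rw [← mul_assoc]; exact ih.bwd e

theorem isPath_cuff (P : V) (i : Fin 3) : G.IsPath P P (G.cf (P, i)) := by
  simpa using (IsPath.nil (G := G) P).cuff i

theorem isPath_cuffInv (P : V) (i : Fin 3) : G.IsPath P P (G.cf (P, i))⁻¹ := by
  simpa using (IsPath.nil (G := G) P).cuffInv i

theorem isPath_ed (e : E) : G.IsPath (G.src e).1 (G.tgt e).1 (G.ed e) := by
  simpa using (IsPath.nil (G := G) _).fwd e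

theorem isPath_edInv (e : E) : G.IsPath (G.tgt e).1 (G.src e).1 (G.ed e)⁻¹ := by
  simpa using (IsPath.nil (G := G) _).bwd e

theorem IsPath.symm {P Q : V} {w : G.Grp} (h : G.IsPath P Q w) : G.IsPath Q P w⁻¹ := by
  induction h with
  | nil => simpa using IsPath.nil (G := G) _
  | cuff h i ih => rw [mul_inv_rev]; exact (isPath_cuffInv _ i).trans ih
  | cuffInv h i ih => rw [mul_inv_rev, inv_inv]; exact (isPath_cuff _ i).trans ih
  | fwd e h ih => rw [mul_inv_rev]; exact (isPath_edInv e).trans ih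
  | bwd e h ih => rw [mul_inv_rev, inv_inv]; exact (isPath_ed e).trans ih

variable (G) in
/-- closed paths at `P` -/
def pi (P : V) : Subgroup G.Grp where
  carrier := {w | G.IsPath P P w}
  mul_mem' := fun ha hb => IsPath.trans ha hb
  one_mem' := IsPath.nil P
  inv_mem' := fun h => IsPath.symm h

theorem mem_pi {P : V} {w : G.Grp} : w ∈ G.pi P ↔ G.IsPath P P w := Iff.rfl

theorem IsPath.transport {H : Type} [Group H] (Ψ : G.Grp →* H) (Φ : H →* G.Grp) (γ : V → G.Grp)
    (hc : ∀ P i, Φ (Ψ (G.cf (P, i))) = γ P * G.cf (P, i) * (γ P)⁻¹)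
    (he : ∀ e, Φ (Ψ (G.ed e)) = γ (G.src e).1 * G.ed e * (γ (G.tgt e).1)⁻¹)
    {P Q : V} {w : G.Grp} (h : G.IsPath P Q w) :
    Φ (Ψ w) = γ P * w * (γ Q)⁻¹ := by
  induction h with
  | nil => simp
  | cuff h i ih => rw [map_mul, map_mul, ih, hc]; group
  | cuffInv h i ih => rw [map_mul, map_mul, ih, map_inv, map_inv, hc]; group
  | fwd e h ih => rw [map_mul, map_mul, ih, he]; group
  | bwd e h ih => rw [map_mul, map_mul, ih, map_inv, map_inv, he]; group

/-- the criterion -/
noncomputable def isoOf {H : Type} [Group H] (P0 : V) (Ψ : G.Grp →* H) (Φ : H →* G.Grp) (γ : V → G.Grp)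
    (hγ : γ P0 = 1)
    (hc : ∀ P i, Φ (Ψ (G.cf (P, i))) = γ P * G.cf (P, i) * (γ P)⁻¹)
    (he : ∀ e, Φ (Ψ (G.ed e)) = γ (G.src e).1 * G.ed e * (γ (G.tgt e).1)⁻¹)
    (hΨΦ : ∀ x, Ψ (Φ x) = x) (hΦ : ∀ x, Φ x ∈ G.pi P0) : H ≃* G.pi P0 :=
  MulEquiv.ofBijective (Φ.codRestrict (G.pi P0) hΦ) (by
    constructor
    · intro x y hxy
      have := congrArg (fun z : G.pi P0 => Ψ z.1) hxy
      simpa [hΨΦ] using this
    · rintro ⟨w, hw⟩
      refine ⟨Ψ w, Subtype.ext ?_⟩
      have := IsPath.transport Ψ Φ γ hc he hw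
      simpa [hγ] using this)

@[simp] theorem isoOf_apply {H : Type} [Group H] (P0 : V) (Ψ : G.Grp →* H) (Φ : H →* G.Grp)
    (γ : V → G.Grp) (hγ : γ P0 = 1)
    (hc : ∀ P i, Φ (Ψ (G.cf (P, i))) = γ P * G.cf (P, i) * (γ P)⁻¹)
    (he : ∀ e, Φ (Ψ (G.ed e)) = γ (G.src e).1 * G.ed e * (γ (G.tgt e).1)⁻¹)
    (hΨΦ : ∀ x, Ψ (Φ x) = x) (hΦ : ∀ x, Φ x ∈ G.pi P0) (x : H) :
    ((isoOf P0 Ψ Φ γ hγ hc he hΨΦ hΦ x : G.pi P0) : G.Grp) = Φ x := rfl

end PG

/-! ## The standard presentation -/

theorem srel_eq (g n : ℕ) :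
    (List.ofFn fun i : Fin g => (sa i : SGrp g n) * sb i * (sa i)⁻¹ * (sb i)⁻¹).prod *
      (List.ofFn fun j : Fin n => (sc j : SGrp g n)).prod = 1 := by
  have := PresentedGroup.one_of_mem (rels := ({srel g n} : Set (FreeGroup (SGen g n))))
    (x := srel g n) rfl
  rw [srel, map_mul, map_list_prod, map_list_prod, List.map_ofFn, List.map_ofFn] at this
  exact this

/-- the homomorphism defined by a solution of the relation -/
def slift {g n : ℕ} {H : Type} [Group H] (A B : Fin g → H) (C : Fin n → H)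
    (h : (List.ofFn fun i : Fin g => A i * B i * (A i)⁻¹ * (B i)⁻¹).prod * (List.ofFn fun j : Fin n => C j).prod = 1) :
    SGrp g n →* H :=
  PresentedGroup.toGroup (f := fun s => match s with
    | .a i => A i
    | .b i => B i
    | .c j => C j) (by
    intro r hr
    rw [Set.mem_singleton_iff] at hr
    subst hr
    rw [srel, map_mul, map_list_prod, map_list_prod, List.map_ofFn, List.map_ofFn]
    simpa [Function.comp_def] using h)

theorem slift_a {g n : ℕ} {H : Type} [Group H] (A B : Fin g → H) (C : Fin n → H) (h) (i : Fin g) :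
    slift A B C h (sa i : SGrp g n) = A i := by simp [slift, sa]
theorem slift_b {g n : ℕ} {H : Type} [Group H] (A B : Fin g → H) (C : Fin n → H) (h) (i : Fin g) :
    slift A B C h (sb i : SGrp g n) = B i := by simp [slift, sb]
theorem slift_c {g n : ℕ} {H : Type} [Group H] (A B : Fin g → H) (C : Fin n → H) (h) (j : Fin n) :
    slift A B C h (sc j : SGrp g n) = C j := by simp [slift, sc]

theorem SGrp.hom_ext {g n : ℕ} {H : Type} [Group H] {f f' : SGrp g n →* H}
    (ha : ∀ i, f (sa i) = f' (sa i)) (hb : ∀ i, f (sb i) = f' (sb i))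
    (hc : ∀ j, f (sc j) = f' (sc j)) : f = f' := by
  apply PresentedGroup.ext
  intro s
  cases s with
  | a i => exact ha i
  | b i => exact hb i
  | c j => exact hc j

/-- induction: a property closed under the group operations that holds for the generators -/
theorem SGrp.mem_of_gens {g n : ℕ} {H : Type} [Group H] (f : SGrp g n →* H) (K : Subgroup H)
    (ha : ∀ i, f (sa i) ∈ K) (hb : ∀ i, f (sb i) ∈ K) (hc : ∀ j, f (sc j) ∈ K) (x : SGrp g n) :
    f x ∈ K := by
  induction x using PresentedGroup.induction_on with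
  | _ x =>
    induction x using FreeGroup.induction_on with
    | C1 => simp
    | of s =>
      cases s with
      | a i => exact ha i
      | b i => exact hb i
      | c j => exact hc j
    | inv_of s hs => 
      rw [map_inv, map_inv]; exact K.inv_mem hs
    | mul x y hx hy => rw [map_mul, map_mul]; exact K.mul_mem hx hy

end Pool.Agent.DC.Iso
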