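import Pool.Agent.DC.Iso.Gen

/-!
Project DC, block Iso (helper6): the linear pants graph for `g + n = s + 3`.
-/

namespace Pool.Agent.DC.Iso

/-- prefix products of a sequence -/
def pp {Γ : Type} [Group Γ] (X : ℕ → Γ) : ℕ → Γ
  | 0 => 1
  | m + 1 => pp X m * X m

theorem pp_zero {Γ : Type} [Group Γ] (X : ℕ → Γ) : pp X 0 = 1 := rfl
theorem pp_succ {Γ : Type} [Group Γ] (X : ℕ → Γ) (m : ℕ) : pp X (m + 1) = pp X m * X m := rfl

theorem map_pp {Γ Δ : Type} [Group Γ] [Group Δ] (f : Γ →* Δ) (X : ℕ → Γ) (m : ℕ) :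
    f (pp X m) = pp (fun k => f (X k)) m := by
  induction m with
  | zero => simp [pp]
  | succ m ih => simp [pp, ih]

theorem pp_congr {Γ : Type} [Group Γ] {X Y : ℕ → Γ} {m : ℕ} (h : ∀ k < m, X k = Y k) :
    pp X m = pp Y m := by
  induction m with
  | zero => rfl
  | succ m ih => rw [pp_succ, pp_succ, ih (fun k hk => h k (by omega)), h m (by omega)]

theorem pp_eq_ofFn {Γ : Type} [Group Γ] (X : ℕ → Γ) (m : ℕ) :
    pp X m = (List.ofFn fun k : Fin m => X k).prod := by
  induction m with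
  | zero => simp [pp]
  | succ m ih =>
    rw [pp_succ, ih, List.ofFn_succ']
    simp [List.concat_eq_append]

/-- the sequence `A 0, ..., A (g-1), C 0, ..., C (n-1), 1, 1, ...` -/
def app {Γ : Type} [Group Γ] {g n : ℕ} (A : Fin g → Γ) (C : Fin n → Γ) (k : ℕ) : Γ :=
  if h : k < g then A ⟨k, h⟩ else if h' : k - g < n then C ⟨k - g, h'⟩ else 1

theorem app_left {Γ : Type} [Group Γ] {g n : ℕ} (A : Fin g → Γ) (C : Fin n → Γ) (i : Fin g) :
    app A C i = A i := by simp [app]

theorem app_right {Γ : Type} [Group Γ] {g n : ℕ} (A : Fin g → Γ) (C : Fin n → Γ) (j : Fin n) :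
    app A C (g + j) = C j := by simp [app]

theorem pp_app {Γ : Type} [Group Γ] {g n : ℕ} (A : Fin g → Γ) (C : Fin n → Γ) :
    pp (app A C) (g + n) = (List.ofFn A).prod * (List.ofFn C).prod := by
  rw [pp_eq_ofFn, ← List.prod_append, ← List.ofFn_fin_append]
  congr 2
  funext k
  refine Fin.addCases (fun i => ?_) (fun j => ?_) k
  · rw [Fin.append_left]; exact app_left A C i
  · rw [Fin.append_right]; exact app_right A C j

/-! ## The graph -/

/-- the cuff of the chain that carries the `k`-th element -/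
def host (s k : ℕ) : Fin (s + 1) × Fin 3 :=
  if k = 0 then (0, 0) else if h : k ≤ s + 1 then (⟨k - 1, by omega⟩, 1) else (Fin.last s, 2)

theorem host_zero (s : ℕ) : host s 0 = (0, 0) := by simp [host]
theorem host_succ (s : ℕ) (m : Fin (s + 1)) : host s (m + 1) = (m, 1) := by
  have := m.2
  simp [host]
  omega
theorem host_last (s : ℕ) : host s (s + 2) = (Fin.last s, 2) := by simp [host]

theorem host_inj {s k l : ℕ} (hk : k < s + 3) (hl : l < s + 3) (h : host s k = host s l) : k = l := by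
  unfold host at h
  split_ifs at h <;> simp_all <;> omega

theorem host_cases (s k : ℕ) (hk : k < s + 3) :
    k = 0 ∨ (∃ m : Fin (s + 1), k = m + 1) ∨ k = s + 2 := by
  rcases Nat.lt_trichotomy k 0 with h | h | h
  · omega
  · exact Or.inl h
  · by_cases h2 : k = s + 2
    · exact Or.inr (Or.inr h2)
    · exact Or.inr (Or.inl ⟨⟨k - 1, by omega⟩, by simp; omega⟩)

abbrev LV (g s : ℕ) : Type := Fin g ⊕ Fin (s + 1)
abbrev LE (g s : ℕ) : Type := Fin g ⊕ Fin g ⊕ Fin s

def hcuff (g s k : ℕ) : LV g s × Fin 3 := (Sum.inr (host s k).1, (host s k).2)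

def lsrc (g s : ℕ) : LE g s → LV g s × Fin 3
  | .inl i => (.inl i, 1)
  | .inr (.inl i) => (.inl i, 2)
  | .inr (.inr m) => (.inr m.castSucc, 2)

def ltgt (g s : ℕ) : LE g s → LV g s × Fin 3
  | .inl i => (.inl i, 0)
  | .inr (.inl i) => hcuff g s i
  | .inr (.inr m) => (.inr m.succ, 0)

theorem hcuff_inj {g s k l : ℕ} (hk : k < s + 3) (hl : l < s + 3) (h : hcuff g s k = hcuff g s l) :
    k = l := by
  apply host_inj hk hl
  simp only [hcuff, Prod.mk.injEq, Sum.inr.injEq] at h
  exact Prod.ext h.1 h.2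

theorem hcuff_ne_src {g s k : ℕ} (hk : k < s + 3) (m : Fin s) :
    hcuff g s k ≠ (.inr m.castSucc, 2) := by
  have := m.2
  intro h
  rcases host_cases s k hk with rfl | ⟨m', rfl⟩ | rfl
  · rw [hcuff, host_zero] at h; simp at h
  · rw [hcuff, host_succ] at h; simp at h
  · rw [hcuff, host_last] at h
    simp only [Prod.mk.injEq, Sum.inr.injEq, and_true] at h
    have := congrArg Fin.val h
    simp at this
    omega

theorem hcuff_ne_tgt {g s k : ℕ} (hk : k < s + 3) (m : Fin s) :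
    hcuff g s k ≠ (.inr m.succ, 0) := by
  have := m.2
  intro h
  rcases host_cases s k hk with rfl | ⟨m', rfl⟩ | rfl
  · rw [hcuff, host_zero] at h
    simp only [Prod.mk.injEq, Sum.inr.injEq, and_true] at h
    have := congrArg Fin.val h
    simp at this
  · rw [hcuff, host_succ] at h; simp at h
  · rw [hcuff, host_last] at h; simp at h

theorem hcuff_ne_inl {g s k : ℕ} (i : Fin g) (a : Fin 3) : hcuff g s k ≠ (.inl i, a) := by
  intro h; simp [hcuff] at h

/-- the linear pants graph -/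
def lin (g n s : ℕ) (hs : s + 3 = g + n) : PG (LV g s) (LE g s) where
  src := lsrc g s
  tgt := ltgt g s
  inj := by
    have hlt : ∀ i : Fin g, (i : ℕ) < s + 3 := fun i => by have := i.2; omega
    rintro ((i | i | m) | (i | i | m)) ((j | j | l) | (j | j | l)) h <;>
      simp only [Sum.elim_inl, Sum.elim_inr, lsrc, ltgt, Prod.mk.injEq, Sum.inl.injEq,
        Sum.inr.injEq, reduceCtorEq, and_true, false_and, Fin.isValue,
        Fin.castSucc_inj, Fin.succ_inj] at h ⊢ <;>
      first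
        | exact h
        | exact absurd h (by decide)
        | exact absurd h.2 (by decide)
        | exact (hcuff_ne_inl _ _ h).elim
        | exact (hcuff_ne_inl _ _ h.symm).elim
        | exact (hcuff_ne_src (hlt _) _ h).elim
        | exact (hcuff_ne_src (hlt _) _ h.symm).elim
        | exact (hcuff_ne_tgt (hlt _) _ h).elim
        | exact (hcuff_ne_tgt (hlt _) _ h.symm).elim
        | exact Fin.ext (hcuff_inj (hlt _) (hlt _) h)

section
variable {g n s : ℕ} (hs : s + 3 = g + n)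

@[simp] theorem lin_src_loop (i : Fin g) : (lin g n s hs).src (.inl i) = (.inl i, 1) := rfl
@[simp] theorem lin_src_att (i : Fin g) : (lin g n s hs).src (.inr (.inl i)) = (.inl i, 2) := rfl
@[simp] theorem lin_src_chain (m : Fin s) :
    (lin g n s hs).src (.inr (.inr m)) = (.inr m.castSucc, 2) := rfl
@[simp] theorem lin_tgt_loop (i : Fin g) : (lin g n s hs).tgt (.inl i) = (.inl i, 0) := rfl
@[simp] theorem lin_tgt_att (i : Fin g) : (lin g n s hs).tgt (.inr (.inl i)) = hcuff g s i := rfl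
@[simp] theorem lin_tgt_chain (m : Fin s) :
    (lin g n s hs).tgt (.inr (.inr m)) = (.inr m.succ, 0) := rfl

/-- chain part of the tree paths -/
def gq : ℕ → (lin g n s hs).Grp
  | 0 => 1
  | m + 1 => gq m * (if h : m < s then (lin g n s hs).ed (.inr (.inr ⟨m, h⟩)) else 1)

theorem gq_succ (m : Fin s) : gq hs (m + 1) = gq hs m * (lin g n s hs).ed (.inr (.inr m)) := by
  rw [gq, dif_pos m.2]

/-- tree paths -/
def gam : LV g s → (lin g n s hs).Grp
  | .inr m => gq hs m
  | .inl i => gq hs (host s i).1 * ((lin g n s hs).ed (.inr (.inl i)))⁻¹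

theorem gam_inr (m : Fin (s + 1)) : gam hs (.inr m) = gq hs m := rfl
theorem gam_inl (i : Fin g) :
    gam hs (.inl i) = gq hs (host s i).1 * ((lin g n s hs).ed (.inr (.inl i)))⁻¹ := rfl

theorem isPath_gq (m : ℕ) (hm : m < s + 1) :
    (lin g n s hs).IsPath (.inr 0) (.inr ⟨m, hm⟩) (gq hs m) := by
  induction m with
  | zero => exact PG.IsPath.nil _
  | succ m ih =>
    have h := ih (by omega)
    rw [gq, dif_pos (by omega)]
    exact (PG.IsPath.fwd (G := lin g n s hs) (.inr (.inr ⟨m, by omega⟩)) h)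

theorem isPath_gam (P : LV g s) : (lin g n s hs).IsPath (.inr 0) P (gam hs P) := by
  rcases P with i | m
  · exact PG.IsPath.bwd (G := lin g n s hs) (.inr (.inl i)) (isPath_gq hs _ (host s i).1.2)
  · exact isPath_gq hs _ m.2

/-- conjugate of a cuff by the tree path -/
def cc (x : LV g s × Fin 3) : (lin g n s hs).Grp :=
  gam hs x.1 * (lin g n s hs).cf x * (gam hs x.1)⁻¹

theorem cc_rel (P : LV g s) : cc hs (P, 0) * cc hs (P, 1) * cc hs (P, 2) = 1 := by
  have := (lin g n s hs).cf_rel P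
  simp only [cc]
  calc _ = gam hs P * ((lin g n s hs).cf (P, 0) * (lin g n s hs).cf (P, 1) *
        (lin g n s hs).cf (P, 2)) * (gam hs P)⁻¹ := by group
    _ = 1 := by rw [this]; group

/-- the closed path of the loop edge -/
def bb (i : Fin g) : (lin g n s hs).Grp :=
  gam hs (.inl i) * (lin g n s hs).ed (.inl i) * (gam hs (.inl i))⁻¹

theorem cc_one (i : Fin g) : cc hs (.inl i, 1) = bb hs i * (cc hs (.inl i, 0))⁻¹ * (bb hs i)⁻¹ := by
  have h := (lin g n s hs).ed_rel (.inl i)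
  rw [lin_src_loop, lin_tgt_loop] at h
  have h' := eq_inv_of_mul_eq_one_right h
  simp only [cc, bb]
  rw [h']
  group

theorem cc_att (i : Fin g) : cc hs (hcuff g s i) = (cc hs (.inl i, 2))⁻¹ := by
  have h := (lin g n s hs).ed_rel (.inr (.inl i))
  rw [lin_src_att, lin_tgt_att] at h
  have h' := eq_inv_of_mul_eq_one_right h
  have e : gam hs (hcuff g s i).1 = gam hs (.inl i) * (lin g n s hs).ed (.inr (.inl i)) := by
    rw [gam_inl]; simp only [hcuff, gam_inr]; group
  simp only [cc]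
  rw [h', e]
  group

theorem cc_att' (i : Fin g) : cc hs (hcuff g s i) =
    cc hs (.inl i, 0) * bb hs i * (cc hs (.inl i, 0))⁻¹ * (bb hs i)⁻¹ := by
  rw [cc_att, inv_eq_iff_mul_eq_one]
  have h1 := cc_one hs i
  have h2 := cc_rel hs (.inl i : LV g s)
  rw [h1] at h2
  have : cc hs (Sum.inl i, 2) = (cc hs (Sum.inl i, 0) * (bb hs i * (cc hs (Sum.inl i, 0))⁻¹ *
    (bb hs i)⁻¹))⁻¹ := eq_inv_of_mul_eq_one_right h2
  rw [this]
  group

theorem cc_chain (m : Fin s) : cc hs (.inr m.succ, 0) = (cc hs (.inr m.castSucc, 2))⁻¹ := by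
  have h := (lin g n s hs).ed_rel (.inr (.inr m))
  rw [lin_src_chain, lin_tgt_chain] at h
  have h' := eq_inv_of_mul_eq_one_right h
  have e : gam hs (.inr m.succ) = gam hs (.inr m.castSucc) * (lin g n s hs).ed (.inr (.inr m)) := by
    rw [gam_inr, gam_inr, Fin.val_succ, gq_succ, Fin.val_castSucc]
  simp only [cc]
  rw [h', e]
  group

/-- the elements carried by the chain -/
def yy (k : ℕ) : (lin g n s hs).Grp := cc hs (hcuff g s k)

theorem hcuff_zero (g s : ℕ) : hcuff g s 0 = (.inr 0, 0) := by rw [hcuff, host_zero]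
theorem hcuff_succ (g s : ℕ) (m : Fin (s + 1)) : hcuff g s (m + 1) = (.inr m, 1) := by
  rw [hcuff, host_succ]
theorem hcuff_last (g s : ℕ) : hcuff g s (s + 2) = (.inr (Fin.last s), 2) := by
  rw [hcuff, host_last]

theorem pp_yy (m : ℕ) (hm : m < s + 1) : pp (yy hs) (m + 1) = cc hs (.inr ⟨m, hm⟩, 0) := by
  induction m with
  | zero => rw [pp_succ, pp_zero, one_mul, yy, hcuff_zero]; rfl
  | succ m ih =>
    have h := ih (by omega)
    rw [pp_succ, h]
    have h1 := cc_chain hs ⟨m, by omega⟩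
    have h2 := cc_rel hs (.inr ⟨m, by omega⟩ : LV g s)
    have h3 : yy hs (m + 1) = cc hs (.inr ⟨m, by omega⟩, 1) := by
      rw [yy]; exact congrArg (cc hs) (hcuff_succ g s ⟨m, by omega⟩)
    rw [h3]
    have h4 : cc hs (.inr ⟨m + 1, hm⟩, 0) = (cc hs (.inr ⟨m, by omega⟩, 2))⁻¹ := h1
    rw [h4]
    exact eq_inv_of_mul_eq_one_left h2

theorem pp_yy2 (m : ℕ) (hm : m < s + 1) :
    pp (yy hs) (m + 2) = (cc hs (.inr ⟨m, hm⟩, 2))⁻¹ := by
  rw [pp_succ, pp_yy hs m hm]
  have h3 : yy hs (m + 1) = cc hs (.inr ⟨m, hm⟩, 1) := by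
    rw [yy]; exact congrArg (cc hs) (hcuff_succ g s ⟨m, hm⟩)
  rw [h3]
  exact eq_inv_of_mul_eq_one_left (cc_rel hs (.inr ⟨m, hm⟩ : LV g s))

theorem pp_yy_total : pp (yy hs) (g + n) = 1 := by
  rw [← hs, pp_succ, pp_yy2 hs s (by omega)]
  have : yy hs (s + 2) = cc hs (.inr (Fin.last s), 2) := by rw [yy, hcuff_last]
  rw [this]
  exact inv_mul_cancel _

end

end Pool.Agent.DC.Iso
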