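import Pool.Agent.DC.Iso.Lin

/-!
Project DC, block Iso (helper6): the fundamental group of the linear pants graph is the
group with the standard presentation (`g + n = s + 3`).
-/

namespace Pool.Agent.DC.Iso

section
variable {g n s : ℕ} (hs : s + 3 = g + n)

/-- the commutator `a b a⁻¹ b⁻¹` -/
def cm {Γ : Type} [Group Γ] (A B : Γ) : Γ := A * B * A⁻¹ * B⁻¹

theorem map_cm {Γ Δ : Type} [Group Γ] [Group Δ] (f : Γ →* Δ) (A B : Γ) :
    f (cm A B) = cm (f A) (f B) := by simp [cm]

/-- the elements of the standard group carried by the chain -/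
def xx (g n : ℕ) (k : ℕ) : SGrp g n := app (fun i : Fin g => cm (sa i) (sb i)) (fun j : Fin n => sc j) k

theorem xx_left (i : Fin g) : xx g n i = cm (sa i) (sb i) := app_left _ _ i
theorem xx_right (j : Fin n) : xx g n (g + j) = sc j := app_right _ _ j

theorem pp_xx_total : pp (xx g n) (g + n) = 1 := by
  have := pp_app (fun i : Fin g => cm (sa i : SGrp g n) (sb i)) (fun j : Fin n => sc j)
  exact this.trans (srel_eq g n)

/-- `Φ` : standard group → path group -/
def phi : SGrp g n →* (lin g n s hs).Grp :=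
  slift (fun i => cc hs (.inl i, 0)) (fun i => bb hs i) (fun j => yy hs (g + j)) (by
    have h1 := pp_app (fun i : Fin g => cc hs (.inl i, 0) * bb hs i * (cc hs (.inl i, 0))⁻¹ *
      (bb hs i)⁻¹) (fun j : Fin n => yy hs (g + j))
    rw [← h1, ← pp_yy_total hs]
    apply pp_congr
    intro k hk
    by_cases hkg : k < g
    · rw [show k = ((⟨k, hkg⟩ : Fin g) : ℕ) from rfl, app_left, yy, cc_att']
    · obtain ⟨j, rfl⟩ := Nat.exists_eq_add_of_le (not_lt.mp hkg)
      exact app_right _ _ (⟨j, by omega⟩ : Fin n))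

@[simp] theorem phi_a (i : Fin g) : phi hs (sa i) = cc hs (.inl i, 0) := slift_a _ _ _ _ i
@[simp] theorem phi_b (i : Fin g) : phi hs (sb i) = bb hs i := slift_b _ _ _ _ i
@[simp] theorem phi_c (j : Fin n) : phi hs (sc j) = yy hs (g + j) := slift_c _ _ _ _ j

theorem phi_xx (k : ℕ) (hk : k < g + n) : phi hs (xx g n k) = yy hs k := by
  by_cases hkg : k < g
  · rw [show k = ((⟨k, hkg⟩ : Fin g) : ℕ) from rfl, xx_left, yy, cc_att', map_cm, phi_a, phi_b]
    rfl
  · obtain ⟨j, rfl⟩ := Nat.exists_eq_add_of_le (not_lt.mp hkg)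
    rw [show xx g n (g + j) = sc (⟨j, by omega⟩ : Fin n) from xx_right ⟨j, by omega⟩, phi_c]

/-- images of the generators of the path group -/
def psiG (g n s : ℕ) : PGen (LV g s) (LE g s) → SGrp g n
  | .cuff (.inl i, a) => ![sa i, sb i * (sa i)⁻¹ * (sb i)⁻¹, (cm (sa i) (sb i))⁻¹] a
  | .cuff (.inr m, a) => ![pp (xx g n) (m + 1), xx g n (m + 1), (pp (xx g n) (m + 2))⁻¹] a
  | .edge (.inl i) => sb i
  | .edge (.inr _) => 1

include hs in
theorem psiG_hcuff (k : ℕ) (hk : k < g + n) : psiG g n s (.cuff (hcuff g s k)) = xx g n k := by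
  rcases host_cases s k (by omega) with rfl | ⟨m, rfl⟩ | rfl
  · rw [hcuff_zero]; simp [psiG, pp]
  · rw [hcuff_succ]; simp [psiG]
  · rw [hcuff_last]
    have h := pp_xx_total (g := g) (n := n)
    rw [← hs, pp_succ] at h
    simp only [psiG]
    exact (eq_inv_of_mul_eq_one_right h).symm

/-- `Ψ` : path group → standard group -/
def psi : (lin g n s hs).Grp →* SGrp g n :=
  PresentedGroup.toGroup (f := psiG g n s) (by
    rintro r (⟨P, rfl⟩ | ⟨e, rfl⟩)
    · rcases P with i | m
      · simp [psiG, cm]; group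
      · simp [psiG, pp]
    · rcases e with i | i | m
      · simp [psiG]
      · have h := psiG_hcuff hs i (by have := i.2; omega)
        rw [xx_left] at h
        simp only [map_mul, map_inv, FreeGroup.lift_apply_of, lin_src_att, lin_tgt_att]
        rw [h]
        simp [psiG]
      · simp [psiG])

@[simp] theorem psi_cf (x : LV g s × Fin 3) : psi hs ((lin g n s hs).cf x) = psiG g n s (.cuff x) :=
  PresentedGroup.toGroup.of _
@[simp] theorem psi_ed (e : LE g s) : psi hs ((lin g n s hs).ed e) = psiG g n s (.edge e) :=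
  PresentedGroup.toGroup.of _

theorem psi_gq (m : ℕ) : psi hs (gq hs m) = 1 := by
  induction m with
  | zero => simp [gq]
  | succ m ih =>
    rw [gq, map_mul, ih, one_mul]
    split_ifs
    · rw [psi_ed]; rfl
    · simp

theorem psi_gam (P : LV g s) : psi hs (gam hs P) = 1 := by
  rcases P with i | m
  · rw [gam_inl, map_mul, psi_gq, map_inv, psi_ed]; simp [psiG]
  · rw [gam_inr, psi_gq]

theorem psi_cc (x : LV g s × Fin 3) : psi hs (cc hs x) = psiG g n s (.cuff x) := by
  rw [cc, map_mul, map_mul, map_inv, psi_gam, psi_cf]; simp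

theorem psi_phi (x : SGrp g n) : psi hs (phi hs x) = x := by
  have : (psi hs).comp (phi hs) = MonoidHom.id _ := by
    apply SGrp.hom_ext
    · intro i
      simp only [MonoidHom.comp_apply, phi_a, psi_cc, MonoidHom.id_apply]
      rfl
    · intro i
      simp only [MonoidHom.comp_apply, phi_b, bb, map_mul, map_inv, psi_gam, psi_ed,
        MonoidHom.id_apply]
      simp [psiG]
    · intro j
      simp only [MonoidHom.comp_apply, phi_c, yy, psi_cc, MonoidHom.id_apply]
      rw [psiG_hcuff hs _ (by have := j.2; omega), xx_right]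
  exact DFunLike.congr_fun this x

theorem phi_pp (m : ℕ) (hm : m ≤ g + n) : phi hs (pp (xx g n) m) = pp (yy hs) m := by
  rw [map_pp]
  exact pp_congr fun k hk => phi_xx hs k (by omega)

theorem phi_psi_cf (P : LV g s) (i : Fin 3) : phi hs (psi hs ((lin g n s hs).cf (P, i))) =
    cc hs (P, i) := by
  rw [psi_cf]
  rcases P with j | m
  · fin_cases i
    · simp [psiG]
    · simp [psiG, cc_one]
    · simp only [psiG, Fin.reduceFinMk, Matrix.cons_val, map_inv, map_cm, phi_a, phi_b]
      have h2 := cc_rel hs (.inl j : LV g s)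
      rw [cc_one] at h2
      rw [eq_inv_of_mul_eq_one_right h2, cm]
      group
  · have := m.2
    fin_cases i
    · simp only [psiG, Fin.zero_eta, Matrix.cons_val_zero]
      rw [phi_pp hs _ (by omega), pp_yy hs m m.2]
    · simp only [psiG, Fin.mk_one, Matrix.cons_val_one, Matrix.cons_val_zero]
      rw [phi_xx hs _ (by omega), yy, hcuff_succ]
    · simp only [psiG, Fin.reduceFinMk, Matrix.cons_val, map_inv]
      rw [phi_pp hs _ (by omega), pp_yy2 hs m m.2, inv_inv]

theorem gam_att (i : Fin g) :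
    gam hs (.inl i) * (lin g n s hs).ed (.inr (.inl i)) * (gam hs (hcuff g s i).1)⁻¹ = 1 := by
  rw [gam_inl]
  simp only [hcuff, gam_inr]
  group

theorem phi_psi_ed (e : LE g s) : phi hs (psi hs ((lin g n s hs).ed e)) =
    gam hs ((lin g n s hs).src e).1 * (lin g n s hs).ed e * (gam hs ((lin g n s hs).tgt e).1)⁻¹ := by
  rw [psi_ed]
  rcases e with i | i | m
  · simp [psiG, bb]
  · simp only [psiG, map_one]
    exact (gam_att hs i).symm
  · simp only [psiG, map_one, lin_src_chain, lin_tgt_chain, gam_inr, Fin.val_succ, gq_succ,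
      Fin.val_castSucc]
    group

theorem isPath_cc (x : LV g s × Fin 3) : cc hs x ∈ (lin g n s hs).pi (.inr 0) := by
  rcases x with ⟨P, i⟩
  exact ((isPath_gam hs P).cuff i).trans (isPath_gam hs P).symm

theorem isPath_bb (i : Fin g) : bb hs i ∈ (lin g n s hs).pi (.inr 0) := by
  exact ((isPath_gam hs (.inl i)).fwd (G := lin g n s hs) (.inl i)).trans
    (isPath_gam hs (.inl i)).symm

theorem phi_mem (x : SGrp g n) : phi hs x ∈ (lin g n s hs).pi (.inr 0) := by
  apply SGrp.mem_of_gens
  · intro i; rw [phi_a]; exact isPath_cc hs _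
  · intro i; rw [phi_b]; exact isPath_bb hs _
  · intro j; rw [phi_c]; exact isPath_cc hs _

/-- the isomorphism -/
noncomputable def linIso : SGrp g n ≃* (lin g n s hs).pi (.inr 0) :=
  PG.isoOf (G := lin g n s hs) (.inr 0) (psi hs) (phi hs) (gam hs) rfl
    (phi_psi_cf hs) (phi_psi_ed hs) (psi_phi hs) (phi_mem hs)

theorem linIso_c (j : Fin n) : ((linIso hs (sc j) : (lin g n s hs).pi (.inr 0)) :
    (lin g n s hs).Grp) = gam hs (hcuff g s (g + j)).1 * (lin g n s hs).cf (hcuff g s (g + j)) *
      (gam hs (hcuff g s (g + j)).1)⁻¹ := phi_c hs j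

end

end Pool.Agent.DC.Iso
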