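import Pool.Agent.DC.Defs
import Pool.Agent.DC.Iso.Gen

/-!
Project DC, block Iso (helper6): from a pants graph on arbitrary finite types to `PantsGraph`.
-/

namespace Pool.Agent.DC.Iso

/-! ## Comparison of the two path groups -/

section
variable {V E : Type} (G : PG V E) (G' : PantsGraph) (eV : V ≃ Fin G'.V) (eE : E ≃ Fin G'.d)
  (hs : ∀ e, G'.side (eE e) false = (eV (G.src e).1, (G.src e).2))
  (ht : ∀ e, G'.side (eE e) true = (eV (G.tgt e).1, (G.tgt e).2))

theorem pcuff_rel (P : Fin G'.V) : G'.cuff (P, 0) * G'.cuff (P, 1) * G'.cuff (P, 2) = 1 := by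
  have := PresentedGroup.one_of_mem (rels := G'.rels) (Or.inl ⟨P, rfl⟩)
  simpa [PantsGraph.cuff, PresentedGroup.of] using this

theorem pedge_rel (e : Fin G'.d) :
    G'.edge e * G'.cuff (G'.side e true) * (G'.edge e)⁻¹ * G'.cuff (G'.side e false) = 1 := by
  have := PresentedGroup.one_of_mem (rels := G'.rels) (Or.inr ⟨e, rfl⟩)
  simpa [PantsGraph.cuff, PantsGraph.edge, PresentedGroup.of] using this

include hs ht in
/-- the comparison homomorphism -/
def th : G.Grp →* G'.PathGroup :=
  PresentedGroup.toGroup (f := fun s => match s with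
    | .cuff x => G'.cuff (eV x.1, x.2)
    | .edge e => G'.edge (eE e)) (by
    rintro r (⟨P, rfl⟩ | ⟨e, rfl⟩)
    · simp only [map_mul, FreeGroup.lift_apply_of]
      exact pcuff_rel G' (eV P)
    · simp only [map_mul, map_inv, FreeGroup.lift_apply_of]
      have := pedge_rel G' (eE e)
      rw [hs, ht] at this
      exact this)

theorem th_cf (x : V × Fin 3) : th G G' eV eE hs ht (G.cf x) = G'.cuff (eV x.1, x.2) :=
  PresentedGroup.toGroup.of _

theorem th_ed (e : E) : th G G' eV eE hs ht (G.ed e) = G'.edge (eE e) :=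
  PresentedGroup.toGroup.of _

include hs in
theorem side_false (e : Fin G'.d) : G'.side e false =
    (eV (G.src (eE.symm e)).1, (G.src (eE.symm e)).2) := by
  rw [← hs, Equiv.apply_symm_apply]

include ht in
theorem side_true (e : Fin G'.d) : G'.side e true =
    (eV (G.tgt (eE.symm e)).1, (G.tgt (eE.symm e)).2) := by
  rw [← ht, Equiv.apply_symm_apply]

/-- its inverse -/
def bk : G'.PathGroup →* G.Grp :=
  PresentedGroup.toGroup (f := Sum.elim (fun x => G.cf (eV.symm x.1, x.2))
    (fun e => G.ed (eE.symm e))) (by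
    rintro r (⟨P, rfl⟩ | ⟨e, rfl⟩)
    · simp only [map_mul, FreeGroup.lift_apply_of]
      exact G.cf_rel (eV.symm P)
    · simp only [map_mul, map_inv, FreeGroup.lift_apply_of]
      rw [side_false G G' eV eE hs, side_true G G' eV eE ht]
      simpa using G.ed_rel (eE.symm e))

theorem bk_cuff (x) : bk G G' eV eE hs ht (G'.cuff x) = G.cf (eV.symm x.1, x.2) :=
  PresentedGroup.toGroup.of _

theorem bk_edge (e) : bk G G' eV eE hs ht (G'.edge e) = G.ed (eE.symm e) :=
  PresentedGroup.toGroup.of _

theorem bk_th (w : G.Grp) : bk G G' eV eE hs ht (th G G' eV eE hs ht w) = w := by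
  have : (bk G G' eV eE hs ht).comp (th G G' eV eE hs ht) = MonoidHom.id _ := by
    apply PresentedGroup.ext
    intro s
    cases s with
    | cuff x =>
      refine ((congrArg (bk G G' eV eE hs ht) (th_cf G G' eV eE hs ht x)).trans
        (bk_cuff G G' eV eE hs ht _)).trans ?_
      rw [Equiv.symm_apply_apply]
      rfl
    | edge e =>
      refine ((congrArg (bk G G' eV eE hs ht) (th_ed G G' eV eE hs ht e)).trans
        (bk_edge G G' eV eE hs ht _)).trans ?_
      rw [Equiv.symm_apply_apply]
      rfl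
  exact DFunLike.congr_fun this w

theorem th_bk (w : G'.PathGroup) : th G G' eV eE hs ht (bk G G' eV eE hs ht w) = w := by
  have : (th G G' eV eE hs ht).comp (bk G G' eV eE hs ht) = MonoidHom.id _ := by
    apply PresentedGroup.ext
    intro s
    cases s with
    | inl x =>
      refine ((congrArg (th G G' eV eE hs ht) (bk_cuff G G' eV eE hs ht x)).trans
        (th_cf G G' eV eE hs ht _)).trans ?_
      simp only [Equiv.apply_symm_apply]
      rfl
    | inr e =>
      refine ((congrArg (th G G' eV eE hs ht) (bk_edge G G' eV eE hs ht e)).trans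
        (th_ed G G' eV eE hs ht _)).trans ?_
      rw [Equiv.apply_symm_apply]
      rfl
  exact DFunLike.congr_fun this w

theorem isPath_th {P Q : V} {w : G.Grp} (h : G.IsPath P Q w) :
    G'.IsPath (eV P) (eV Q) (th G G' eV eE hs ht w) := by
  induction h with
  | nil => rw [map_one]; exact PantsGraph.IsPath.refl _
  | cuff h i ih => rw [map_mul, th_cf]; exact ih.cuff i
  | cuffInv h i ih => rw [map_mul, map_inv, th_cf]; exact ih.cuffInv i
  | fwd e h ih =>
    rw [map_mul, th_ed]
    have h1 : eV (G.src e).1 = (G'.side (eE e) false).1 := by rw [hs]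
    have h2 : eV (G.tgt e).1 = (G'.side (eE e) true).1 := by rw [ht]
    rw [h1] at ih
    rw [h2]
    exact ih.edge (eE e)
  | bwd e h ih =>
    rw [map_mul, map_inv, th_ed]
    have h1 : eV (G.src e).1 = (G'.side (eE e) false).1 := by rw [hs]
    have h2 : eV (G.tgt e).1 = (G'.side (eE e) true).1 := by rw [ht]
    rw [h2] at ih
    rw [h1]
    exact ih.edgeInv (eE e)

theorem isPath_bk {P Q : Fin G'.V} {w : G'.PathGroup} (h : G'.IsPath P Q w) :
    G.IsPath (eV.symm P) (eV.symm Q) (bk G G' eV eE hs ht w) := by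
  induction h with
  | refl => rw [map_one]; exact PG.IsPath.nil _
  | cuff i h ih => rw [map_mul, bk_cuff]; exact ih.cuff i
  | cuffInv i h ih => rw [map_mul, map_inv, bk_cuff]; exact ih.cuffInv i
  | edge e h ih =>
    rw [map_mul, bk_edge]
    have h1 : eV.symm (G'.side e false).1 = (G.src (eE.symm e)).1 := by
      rw [side_false G G' eV eE hs]; simp
    have h2 : eV.symm (G'.side e true).1 = (G.tgt (eE.symm e)).1 := by
      rw [side_true G G' eV eE ht]; simp
    rw [h1] at ih
    rw [h2]
    exact ih.fwd (eE.symm e)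
  | edgeInv e h ih =>
    rw [map_mul, map_inv, bk_edge]
    have h1 : eV.symm (G'.side e false).1 = (G.src (eE.symm e)).1 := by
      rw [side_false G G' eV eE hs]; simp
    have h2 : eV.symm (G'.side e true).1 = (G.tgt (eE.symm e)).1 := by
      rw [side_true G G' eV eE ht]; simp
    rw [h2] at ih
    rw [h1]
    exact ih.bwd (eE.symm e)

/-- the isomorphism of the groups of closed paths -/
def piIso (P0 : V) (hb : G'.base = eV P0) : G.pi P0 ≃* G'.pi1 where
  toFun x := ⟨th G G' eV eE hs ht x, by
    have := isPath_th G G' eV eE hs ht x.2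
    rw [← hb] at this
    exact this⟩
  invFun y := ⟨bk G G' eV eE hs ht y, by
    have := isPath_bk G G' eV eE hs ht y.2
    rw [hb, Equiv.symm_apply_apply] at this
    exact this⟩
  left_inv x := Subtype.ext (bk_th G G' eV eE hs ht x)
  right_inv y := Subtype.ext (th_bk G G' eV eE hs ht y)
  map_mul' x y := Subtype.ext (map_mul (th G G' eV eE hs ht) (x : G.Grp) (y : G.Grp))

theorem piIso_coe (P0 : V) (hb : G'.base = eV P0) (x : G.pi P0) :
    ((piIso G G' eV eE hs ht P0 hb x : G'.pi1) : G'.PathGroup) = th G G' eV eE hs ht x := rfl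

end

/-! ## The `PantsGraph` of a pants graph on finite types -/

section
variable {V E : Type} [Fintype V] [Fintype E] {n : ℕ}

/-- the two cuffs of an edge -/
def PG.side (G : PG V E) (e : E) (b : Bool) : V × Fin 3 := if b then G.tgt e else G.src e

omit [Fintype V] [Fintype E] in
theorem conn_of_isPath (G : PG V E) {V' : Type} (eV : V ≃ V') {E' : Type} (eE : E ≃ E') {P Q : V}
    {w : G.Grp} (h : G.IsPath P Q w) :
    Relation.ReflTransGen (fun Q R : V' => ∃ (e : E') (b : Bool),
      eV (G.side (eE.symm e) b).1 = Q ∧ eV (G.side (eE.symm e) (!b)).1 = R) (eV P) (eV Q) := by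
  induction h with
  | nil => exact Relation.ReflTransGen.refl
  | cuff h i ih => exact ih
  | cuffInv h i ih => exact ih
  | fwd e h ih =>
    refine ih.tail ⟨eE e, false, ?_, ?_⟩
    · simp [PG.side]
    · simp [PG.side]
  | bwd e h ih =>
    refine ih.tail ⟨eE e, true, ?_, ?_⟩
    · simp [PG.side]
    · simp [PG.side]

/-- the `PantsGraph` of a pants graph on finite types -/
noncomputable def toPants (G : PG V E) (P0 : V) (punct : Fin n → V × Fin 3)
    (bij : Function.Bijective (Sum.elim (Sum.elim G.src G.tgt) punct))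
    (conn : ∀ P, ∃ w, G.IsPath P0 P w) : PantsGraph where
  V := Fintype.card V
  d := Fintype.card E
  n := n
  side := fun e b => (Fintype.equivFin V (G.side ((Fintype.equivFin E).symm e) b).1,
    (G.side ((Fintype.equivFin E).symm e) b).2)
  puncture := fun j => (Fintype.equivFin V (punct j).1, (punct j).2)
  bij := by
    let eV := Fintype.equivFin V
    let eE := Fintype.equivFin E
    let f1 : ((Fin (Fintype.card E) × Bool) ⊕ Fin n) ≃ ((E ⊕ E) ⊕ Fin n) :=
      Equiv.sumCongr (((eE.symm.prodCongr (Equiv.refl Bool)).trans (Equiv.prodComm _ _)).trans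
        (Equiv.boolProdEquivSum E)) (Equiv.refl _)
    let f2 : (V × Fin 3) ≃ (Fin (Fintype.card V) × Fin 3) := eV.prodCongr (Equiv.refl _)
    have : (Sum.elim (fun p : Fin (Fintype.card E) × Bool =>
        ((eV (G.side (eE.symm p.1) p.2).1, (G.side (eE.symm p.1) p.2).2) :
          Fin (Fintype.card V) × Fin 3))
        (fun j => (eV (punct j).1, (punct j).2)) : _ → Fin (Fintype.card V) × Fin 3) =
        f2 ∘ (Sum.elim (Sum.elim G.src G.tgt) punct) ∘ f1 := by
      funext x
      rcases x with ⟨e, b⟩ | j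
      · cases b <;> rfl
      · rfl
    rw [this]
    exact f2.bijective.comp (bij.comp f1.bijective)
  base := Fintype.equivFin V P0
  conn := by
    intro P
    obtain ⟨w, hw⟩ := conn ((Fintype.equivFin V).symm P)
    have := conn_of_isPath G (Fintype.equivFin V) (Fintype.equivFin E) hw
    rw [Equiv.apply_symm_apply] at this
    exact this

/-- The packaging theorem. -/
theorem pack {g : ℕ} (G : PG V E) (P0 : V) (punct : Fin n → V × Fin 3)
    (inj : Function.Injective (Sum.elim (Sum.elim G.src G.tgt) punct))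
    (hcard : 2 * Fintype.card E + n = 3 * Fintype.card V)
    (hd : Fintype.card E + 3 = 3 * g + n)
    (γ : V → G.Grp) (hγ : ∀ P, G.IsPath P0 P (γ P))
    (Φ : SGrp g n ≃* G.pi P0)
    (hΦ : ∀ j, ((Φ (sc j) : G.pi P0) : G.Grp) =
      γ (punct j).1 * G.cf (punct j) * (γ (punct j).1)⁻¹) :
    ∃ (G' : PantsGraph) (hn : G'.n = n) (_ : G'.d + 3 = 3 * g + n) (Φ' : SGrp g n ≃* G'.pi1),
      ∀ j : Fin G'.n, ∃ w, G'.IsPath G'.base (G'.puncture j).1 w ∧
        ((Φ' (sc (Fin.cast hn j)) : G'.pi1) : G'.PathGroup) = w * G'.cuff (G'.puncture j) * w⁻¹ := by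
  have bij : Function.Bijective (Sum.elim (Sum.elim G.src G.tgt) punct) := by
    rw [Fintype.bijective_iff_injective_and_card]
    refine ⟨inj, ?_⟩
    simp only [Fintype.card_sum, Fintype.card_fin, Fintype.card_prod]
    omega
  have conn : ∀ P, ∃ w, G.IsPath P0 P w := fun P => ⟨_, hγ P⟩
  let G' := toPants G P0 punct bij conn
  let eV : V ≃ Fin G'.V := Fintype.equivFin V
  let eE : E ≃ Fin G'.d := Fintype.equivFin E
  have hs : ∀ e, G'.side (eE e) false = (eV (G.src e).1, (G.src e).2) := by
    intro e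
    show (eV (G.side (eE.symm (eE e)) false).1, (G.side (eE.symm (eE e)) false).2) = _
    rw [Equiv.symm_apply_apply]
    rfl
  have ht : ∀ e, G'.side (eE e) true = (eV (G.tgt e).1, (G.tgt e).2) := by
    intro e
    show (eV (G.side (eE.symm (eE e)) true).1, (G.side (eE.symm (eE e)) true).2) = _
    rw [Equiv.symm_apply_apply]
    rfl
  refine ⟨G', rfl, hd, Φ.trans (piIso G G' eV eE hs ht P0 rfl), ?_⟩
  intro j
  refine ⟨th G G' eV eE hs ht (γ (punct j).1), ?_, ?_⟩
  · exact isPath_th G G' eV eE hs ht (hγ _)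
  · have h1 : ((Φ (sc j) : G.pi P0) : G.Grp) = _ := hΦ j
    refine (congrArg (th G G' eV eE hs ht) h1).trans ?_
    rw [map_mul, map_mul, map_inv, th_cf]
    rfl

end

end Pool.Agent.DC.Iso
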