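import Pool.Agent.DC.Iso.LinIso
import Pool.Agent.DC.Iso.Transport

/-!
Project DC, block Iso (helper6): the cases `(g, n) = (1, 1)` and `(2, 0)`, and the final theorem.
-/

namespace Pool.Agent.DC.Iso

/-! ## `(1, 1)` -/

def G11 : PG Unit Unit where
  src := fun _ => ((), 1)
  tgt := fun _ => ((), 0)
  inj := by decide

def psi11G : PGen Unit Unit → SGrp 1 1
  | .cuff (_, a) => ![sa 0, sb 0 * (sa 0)⁻¹ * (sb 0)⁻¹, sc 0] a
  | .edge _ => sb 0

theorem srel11 : (sa 0 : SGrp 1 1) * sb 0 * (sa 0)⁻¹ * (sb 0)⁻¹ * sc 0 = 1 := by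
  simpa using srel_eq 1 1

def psi11 : G11.Grp →* SGrp 1 1 :=
  PresentedGroup.toGroup (f := psi11G) (by
    rintro r (⟨P, rfl⟩ | ⟨e, rfl⟩)
    · simp only [map_mul, FreeGroup.lift_apply_of, psi11G]
      simpa [mul_assoc] using srel11
    · simp only [map_mul, map_inv, FreeGroup.lift_apply_of, psi11G, G11]
      simp)

theorem psi11_cf (x) : psi11 (G11.cf x) = psi11G (.cuff x) := PresentedGroup.toGroup.of _
theorem psi11_ed (e) : psi11 (G11.ed e) = psi11G (.edge e) := PresentedGroup.toGroup.of _

theorem g11_one : G11.cf ((), 1) = G11.ed () * (G11.cf ((), 0))⁻¹ * (G11.ed ())⁻¹ := by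
  have h := G11.ed_rel ()
  have h' : G11.ed () * G11.cf ((), 0) * (G11.ed ())⁻¹ * G11.cf ((), 1) = 1 := h
  rw [eq_inv_of_mul_eq_one_right h']
  group

def phi11 : SGrp 1 1 →* G11.Grp :=
  slift (fun _ => G11.cf ((), 0)) (fun _ => G11.ed ()) (fun _ => G11.cf ((), 2)) (by
    have h := G11.cf_rel ()
    rw [g11_one] at h
    simpa [mul_assoc] using h)

theorem phi11_a : phi11 (sa 0) = G11.cf ((), 0) := slift_a _ _ _ _ _
theorem phi11_b : phi11 (sb 0) = G11.ed () := slift_b _ _ _ _ _
theorem phi11_c : phi11 (sc 0) = G11.cf ((), 2) := slift_c _ _ _ _ _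

noncomputable def iso11 : SGrp 1 1 ≃* G11.pi () :=
  PG.isoOf (G := G11) () psi11 phi11 (fun _ => 1) rfl
    (by
      rintro ⟨⟩ i
      rw [psi11_cf]
      fin_cases i
      · simp [psi11G, phi11_a]
      · simp [psi11G, phi11_a, phi11_b, g11_one]
      · simp [psi11G, phi11_c])
    (by
      rintro ⟨⟩
      rw [psi11_ed]
      simp [psi11G, phi11_b])
    (by
      intro x
      have : psi11.comp phi11 = MonoidHom.id _ := by
        apply SGrp.hom_ext
        · intro i
          obtain rfl : i = 0 := Subsingleton.elim _ _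
          rw [MonoidHom.comp_apply, phi11_a, psi11_cf]; rfl
        · intro i
          obtain rfl : i = 0 := Subsingleton.elim _ _
          rw [MonoidHom.comp_apply, phi11_b, psi11_ed]; rfl
        · intro i
          obtain rfl : i = 0 := Subsingleton.elim _ _
          rw [MonoidHom.comp_apply, phi11_c, psi11_cf]; rfl
      exact DFunLike.congr_fun this x)
    (by
      intro x
      apply SGrp.mem_of_gens
      · intro i
        obtain rfl : i = 0 := Subsingleton.elim _ _
        rw [phi11_a]; exact PG.isPath_cuff () 0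
      · intro i
        obtain rfl : i = 0 := Subsingleton.elim _ _
        rw [phi11_b]; exact PG.isPath_ed (G := G11) ()
      · intro i
        obtain rfl : i = 0 := Subsingleton.elim _ _
        rw [phi11_c]; exact PG.isPath_cuff () 2)

/-! ## `(2, 0)` -/

def G20 : PG (Fin 2) (Fin 2 ⊕ Unit) where
  src := fun e => match e with
    | .inl i => (i, 1)
    | .inr _ => (0, 2)
  tgt := fun e => match e with
    | .inl i => (i, 0)
    | .inr _ => (1, 2)
  inj := by decide

def psi20G : PGen (Fin 2) (Fin 2 ⊕ Unit) → SGrp 2 0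
  | .cuff (i, a) => ![sa i, sb i * (sa i)⁻¹ * (sb i)⁻¹, (cm (sa i) (sb i))⁻¹] a
  | .edge (.inl i) => sb i
  | .edge (.inr _) => 1

theorem srel20 : cm (sa 0 : SGrp 2 0) (sb 0) * cm (sa 1) (sb 1) = 1 := by
  simpa [List.ofFn_succ, cm] using srel_eq 2 0

def psi20 : G20.Grp →* SGrp 2 0 :=
  PresentedGroup.toGroup (f := psi20G) (by
    rintro r (⟨P, rfl⟩ | ⟨e, rfl⟩)
    · simp only [map_mul, FreeGroup.lift_apply_of, psi20G]
      simp [cm]; group
    · rcases e with i | e
      · simp only [map_mul, map_inv, FreeGroup.lift_apply_of, psi20G, G20]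
        simp
      · simp only [map_mul, map_inv, FreeGroup.lift_apply_of, psi20G, G20]
        have h := srel20
        simp only [Matrix.cons_val, one_mul, inv_one, mul_one]
        rw [← mul_inv_rev, h, inv_one])

theorem psi20_cf (x) : psi20 (G20.cf x) = psi20G (.cuff x) := PresentedGroup.toGroup.of _
theorem psi20_ed (e) : psi20 (G20.ed e) = psi20G (.edge e) := PresentedGroup.toGroup.of _

def gam20 : Fin 2 → G20.Grp := ![1, G20.ed (.inr ())]

def cc20 (x : Fin 2 × Fin 3) : G20.Grp := gam20 x.1 * G20.cf x * (gam20 x.1)⁻¹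
def bb20 (i : Fin 2) : G20.Grp := gam20 i * G20.ed (.inl i) * (gam20 i)⁻¹

theorem cc20_one (i : Fin 2) : cc20 (i, 1) = bb20 i * (cc20 (i, 0))⁻¹ * (bb20 i)⁻¹ := by
  have h : G20.ed (.inl i) * G20.cf (i, 0) * (G20.ed (.inl i))⁻¹ * G20.cf (i, 1) = 1 :=
    G20.ed_rel (.inl i)
  have h' := eq_inv_of_mul_eq_one_right h
  simp only [cc20, bb20]
  rw [h']
  group

theorem cc20_rel (i : Fin 2) : cc20 (i, 0) * cc20 (i, 1) * cc20 (i, 2) = 1 := by
  have := G20.cf_rel i
  simp only [cc20]
  calc _ = gam20 i * (G20.cf (i, 0) * G20.cf (i, 1) * G20.cf (i, 2)) * (gam20 i)⁻¹ := by group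
    _ = 1 := by rw [this]; group

theorem cc20_two (i : Fin 2) : cc20 (i, 2) = (cm (cc20 (i, 0)) (bb20 i))⁻¹ := by
  have h := cc20_rel i
  rw [cc20_one] at h
  rw [eq_inv_of_mul_eq_one_right h, cm]
  group

theorem cc20_att : cc20 (1, 2) * cc20 (0, 2) = 1 := by
  have h : G20.ed (.inr ()) * G20.cf (1, 2) * (G20.ed (.inr ()))⁻¹ * G20.cf (0, 2) = 1 :=
    G20.ed_rel (.inr ())
  simpa [cc20, gam20] using h

def phi20 : SGrp 2 0 →* G20.Grp :=
  slift (fun i => cc20 (i, 0)) bb20 (fun j => j.elim0) (by
    have h := cc20_att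
    rw [cc20_two, cc20_two, ← mul_inv_rev, inv_eq_one] at h
    simpa [List.ofFn_succ, cm] using h)

theorem phi20_a (i) : phi20 (sa i) = cc20 (i, 0) := slift_a _ _ _ _ _
theorem phi20_b (i) : phi20 (sb i) = bb20 i := slift_b _ _ _ _ _

theorem psi20_gam (i) : psi20 (gam20 i) = 1 := by
  fin_cases i
  · simp [gam20]
  · simp [gam20, psi20_ed, psi20G]

noncomputable def iso20 : SGrp 2 0 ≃* G20.pi 0 :=
  PG.isoOf (G := G20) 0 psi20 phi20 gam20 rfl
    (by
      intro P i
      show _ = cc20 (P, i)
      rw [psi20_cf]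
      fin_cases i
      · simp [psi20G, phi20_a]
      · simp [psi20G, phi20_a, phi20_b, cc20_one]
      · simp [psi20G, phi20_a, phi20_b, cc20_two, map_cm])
    (by
      intro e
      rw [psi20_ed]
      rcases e with i | ⟨⟩
      · simp only [psi20G, phi20_b]; rfl
      · have h1 : gam20 (G20.src (.inr ())).1 = 1 := rfl
        have h2 : gam20 (G20.tgt (.inr ())).1 = G20.ed (.inr ()) := rfl
        rw [h1, h2]
        simp [psi20G])
    (by
      intro x
      have : psi20.comp phi20 = MonoidHom.id _ := by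
        apply SGrp.hom_ext
        · intro i
          rw [MonoidHom.comp_apply, phi20_a, cc20, map_mul, map_mul, map_inv, psi20_gam, psi20_cf]
          simp [psi20G]
        · intro i
          rw [MonoidHom.comp_apply, phi20_b, bb20, map_mul, map_mul, map_inv, psi20_gam, psi20_ed]
          simp [psi20G]
        · intro j; exact j.elim0
      exact DFunLike.congr_fun this x)
    (by
      have hγ : ∀ P, G20.IsPath 0 P (gam20 P) := by
        intro P
        fin_cases P
        · exact PG.IsPath.nil _
        · exact PG.isPath_ed (G := G20) (.inr ())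
      intro x
      apply SGrp.mem_of_gens
      · intro i
        rw [phi20_a]; exact ((hγ i).cuff 0).trans (hγ i).symm
      · intro i
        rw [phi20_b]; exact ((hγ i).fwd (G := G20) (.inl i)).trans (hγ i).symm
      · intro j; exact j.elim0)

/-! ## The final theorem -/

/-- For every `(g, n)` with `3 g - 3 + n ≥ 1` there is a pants graph with `3 g - 3 + n` curves and
`n` punctures and an isomorphism from the group with the standard presentation onto its fundamental
group which sends `c_j` to a simple loop around the `j`-th puncture. -/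
theorem exists_pantsGraph (g n : ℕ) (h : 4 ≤ 3 * g + n) :
    ∃ (G : PantsGraph) (hn : G.n = n) (_ : G.d + 3 = 3 * g + n) (Φ : SGrp g n ≃* G.pi1),
      ∀ j : Fin G.n, ∃ w, G.IsPath G.base (G.puncture j).1 w ∧
        ((Φ (sc (Fin.cast hn j)) : G.pi1) : G.PathGroup) = w * G.cuff (G.puncture j) * w⁻¹ := by
  by_cases h3 : 3 ≤ g + n
  · obtain ⟨s, hs⟩ : ∃ s, s + 3 = g + n := ⟨g + n - 3, by omega⟩
    refine pack (lin g n s hs) (.inr 0) (fun j => hcuff g s (g + j)) ?_ ?_ ?_ (gam hs)
      (isPath_gam hs) (linIso hs) (linIso_c hs)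
    · have hi := (lin g n s hs).inj
      rintro (x | j) (y | l) hxy
      · exact congrArg Sum.inl (hi hxy)
      · exfalso
        have hl : g + (l : ℕ) < s + 3 := by have := l.2; omega
        rcases x with ((i | i | m) | (i | i | m))
        · exact hcuff_ne_inl _ _ hxy.symm
        · exact hcuff_ne_inl _ _ hxy.symm
        · exact hcuff_ne_src hl _ hxy.symm
        · exact hcuff_ne_inl _ _ hxy.symm
        · have := hcuff_inj (by have := i.2; omega) hl hxy
          have := i.2
          omega
        · exact hcuff_ne_tgt hl _ hxy.symm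
      · exfalso
        have hl : g + (j : ℕ) < s + 3 := by have := j.2; omega
        rcases y with ((i | i | m) | (i | i | m))
        · exact hcuff_ne_inl _ _ hxy
        · exact hcuff_ne_inl _ _ hxy
        · exact hcuff_ne_src hl _ hxy
        · exact hcuff_ne_inl _ _ hxy
        · have := hcuff_inj hl (by have := i.2; omega) hxy
          have := i.2
          omega
        · exact hcuff_ne_tgt hl _ hxy
      · have := hcuff_inj (by have := j.2; omega) (by have := l.2; omega) hxy
        exact congrArg Sum.inr (Fin.ext (by omega))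
    · simp; omega
    · simp; omega
  · have hg : (g = 1 ∧ n = 1) ∨ (g = 2 ∧ n = 0) := by omega
    rcases hg with ⟨rfl, rfl⟩ | ⟨rfl, rfl⟩
    · exact pack G11 () (fun _ => ((), 2)) (by decide) (by simp) (by simp) (fun _ => 1)
        (fun _ => PG.IsPath.nil _) iso11 (by
          intro j
          obtain rfl : j = 0 := Subsingleton.elim _ _
          have h : ((iso11 (sc 0) : G11.pi ()) : G11.Grp) = G11.cf ((), 2) := phi11_c
          rw [h]
          simp)
    · exact pack G20 0 (fun j => j.elim0) (by decide) (by simp) (by simp) gam20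
        (by
          intro P
          fin_cases P
          · exact PG.IsPath.nil _
          · exact PG.isPath_ed (G := G20) (.inr ()))
        iso20 (by intro j; exact j.elim0)

end Pool.Agent.DC.Iso
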